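import Pool.Agent.R913.Tor.Crit

/-!
# MP_5d33ca_ag: an exact criterion for the period conjecture of a Nori motive

Let `K` be an algebraically closed subfield of `ℂ` (for instance the field of the algebraic numbers) and let `M` be a
motive over `K`.  In bases of its de Rham realisation (over `K`) and of its Betti realisation (over `ℚ`) the period
torsor of `M`, the torsor of the tensor isomorphisms between the two realisations, is a `K`-subtorsor `S` of `GL_N`
(`IsSubtorsor K S`), and the comparison isomorphism is a point `c` of `S`.  The Lie algebra `g = LM S` of `S` is the
complexified Lie algebra of the motivic Galois group of `M`, so that `dim G_mot(M) = dim g`, and the periods of `M`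
are the entries of `c`.

* A *subobject* of the adjoint object is a complex subspace `U` of `g` such that `U` and its transport `c⁻¹ U c` are
  both spanned by matrices with entries in `K` (`Rational`, `conjBy`).  These are the subobjects of the de Rham-Betti
  object `g` with coefficients in `K`.
* `Zar K c` is the Zariski closure of `c` over `K` in `GL_N`; it is a torsor if it is closed under `x y⁻¹ z`.
* `logs K c` is the complex space of all logarithmic derivatives `D(c) c⁻¹`, for the derivations `D` of `ℂ` over `K`.
* `der g` is the derived algebra of `g`.

**Theorem.**  For every `K`-subtorsor `S` of `GL_N` and every point `c` of `S`, the transcendence degree over `K` of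
the entries of `c` is equal to the dimension of `S` if and only if the following three conditions hold:

1. the Zariski closure of `c` is a torsor;
2. every subobject of the adjoint object `g` is an ideal of `g`;
3. `g` is spanned by its derived algebra and the logarithmic derivatives of `c`.

In 2 it suffices to consider the Lie subalgebras of `g` which are rational over `K` and contain the logarithmic
derivatives of `c` (they are subobjects).  Moreover, if `g / [g, g]` has dimension at most one and `det c` is not in
`K`, then condition 3 is satisfied.

Nothing is assumed on the motivic Galois group: it may be disconnected, and it need not be reductive.  For mixed Tate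
motives, and more generally if the reductive part of the motivic Galois group has a one-dimensional centre which acts
with non-zero weights on the unipotent radical, `g / [g, g]` is one-dimensional, and `det c` is the product of a
non-zero algebraic number and a power of `2 π i`; so in this case the period conjecture for `M` is equivalent to the
conditions 1 and 2.  The first condition is the statement that the closure of the period point is homogeneous; the
second one is a statement of linear algebra in degree two: it only concerns the subobjects of the adjoint object, and
not all tensor constructions.  That all subobjects of all tensor constructions are motivic is a classical necessary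
condition; it is the sufficiency of the adjoint object which is proved here.
-/

set_option autoImplicit false

namespace Pool.Agent.Results.MP_5d33ca_ag.AdjointSubobjects

open Matrix Pool.Agent.R913.Tor Pool.Agent.TH127.PT

/-- **An exact criterion for the period conjecture.** -/
theorem result (K : Subfield ℂ) [IsAlgClosed K] {N : Type} [Fintype N] [DecidableEq N]
    (S : Set (Matrix N N ℂ)) (hS : IsSubtorsor K S) (c : Matrix N N ℂ) (hc : c ∈ S) :
    List.TFAE [
      Algebra.trdeg K (Algebra.adjoin K (Set.range fun b : N × N => c b.1 b.2)) =
        (Module.finrank ℂ (LM S) : Cardinal),
      IsTorsor (Zar K c) ∧ SubIdeals K (LM S) c ∧ LM S ≤ der (LM S) ⊔ logs K c,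
      IsTorsor (Zar K c) ∧ SubalgIdeals K (LM S) c ∧ LM S ≤ der (LM S) ⊔ logs K c] ∧
    ((∃ W, LM S ≤ der (LM S) ⊔ Submodule.span ℂ {W}) → det c ∉ K → LM S ≤ der (LM S) ⊔ logs K c) :=
  ⟨criterion hS hc, fun ⟨_, hW⟩ hdet => ab_of_det hS hc hW hdet⟩

end Pool.Agent.Results.MP_5d33ca_ag.AdjointSubobjects
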