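import Mathlib
import Pool.Agent.H406R3.CatMeasure

set_option autoImplicit false

/-!
# Catalan's constant `β(2)` and `β(4)`: a simultaneous irrationality measure

`β(2) = ∑ (-1)^j/(2j+1)^2` (Catalan's constant) and `β(4) = ∑ (-1)^j/(2j+1)^4` are periods of mixed Tate
Nori motives over `ℚ(i)` (extensions of `ℚ(0)` by `ℚ(2)` and by `ℚ(4)`). The period conjecture predicts
that `π, β(2), β(4)` are algebraically independent.
-/

namespace Pool.Agent.Results.MP_5d33ca_ag.BetaTwoBetaFour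

/-- `β(s) = ∑ (-1)^j/(2j+1)^s`. -/
noncomputable def beta (s : ℕ) : ℝ := ∑' j : ℕ, (-1 : ℝ) ^ j / (2 * (j : ℝ) + 1) ^ s

/-- **Simultaneous irrationality measure of `β(2)` and `β(4)`.** (1) There is `C > 0` with
`max(|β(2) - a/q|, |β(4) - b/t|) > exp (-C log (q t) log (1 + log (q t)))` for all integers `a, b` and
`q, t ≥ 1`, `q t ≥ 2`. (2) At least one of `β(2)`, `β(4)` is irrational. -/
theorem result :
    (∃ C : ℝ, 0 < C ∧ ∀ q t : ℕ, 1 ≤ q → 1 ≤ t → 2 ≤ q * t → ∀ a b : ℤ,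
      Real.exp (-(C * Real.log (q * t) * Real.log (1 + Real.log (q * t)))) <
        max |beta 2 - (a : ℝ) / q| |beta 4 - (b : ℝ) / t|) ∧
    (Irrational (beta 2) ∨ Irrational (beta 4)) := by
  obtain ⟨C, hC, h⟩ := Pool.Agent.H406R3.cat_measure
  have key : ∀ q t : ℕ, 1 ≤ q → 1 ≤ t → 2 ≤ q * t → ∀ a b : ℤ,
      Real.exp (-(C * Real.log (q * t) * Real.log (1 + Real.log (q * t)))) <
        max |beta 2 - (a : ℝ) / q| |beta 4 - (b : ℝ) / t| := by
    intro q t hq ht hqt a b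
    have hqR : (0 : ℝ) < q := by exact_mod_cast hq
    have htR : (0 : ℝ) < t := by exact_mod_cast ht
    have h1 := h (q * t) hqt (a * t) (b * q)
    have e1 : (((a * t : ℤ)) : ℝ) / ((q * t : ℕ) : ℝ) = (a : ℝ) / q := by
      push_cast
      rw [mul_div_mul_right _ _ htR.ne']
    have e2 : (((b * q : ℤ)) : ℝ) / ((q * t : ℕ) : ℝ) = (b : ℝ) / t := by
      push_cast
      rw [mul_comm (q : ℝ) t, mul_div_mul_right _ _ hqR.ne']
    have e3 : ((q * t : ℕ) : ℝ) = (q : ℝ) * t := by push_cast; ring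
    rw [e1, e2, e3] at h1
    exact h1
  refine ⟨⟨C, hC, key⟩, ?_⟩
  by_contra hcon
  rw [not_or] at hcon
  obtain ⟨h2, h4⟩ := hcon
  unfold Irrational at h2 h4
  push Not at h2 h4
  obtain ⟨u, hu⟩ := h2
  obtain ⟨v, hv⟩ := h4
  have h1 := key (2 * u.den) v.den (by have := u.den_pos; omega) v.den_pos
    (by
      have h1 := u.den_pos
      have h2 := v.den_pos
      nlinarith) (2 * u.num) v.num
  have e1 : beta 2 - ((2 * u.num : ℤ) : ℝ) / ((2 * u.den : ℕ) : ℝ) = 0 := by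
    rw [← hu]
    push_cast
    rw [mul_div_mul_left _ _ (by norm_num : (2 : ℝ) ≠ 0), Rat.cast_def, sub_self]
  have e2 : beta 4 - (v.num : ℝ) / (v.den : ℝ) = 0 := by
    rw [← hv, Rat.cast_def, sub_self]
  rw [e1, e2, abs_zero, max_self] at h1
  exact absurd h1 (not_lt.2 (Real.exp_pos _).le)

end Pool.Agent.Results.MP_5d33ca_ag.BetaTwoBetaFour
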