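import Pool.Agent.R917.BX.Uni2
import Pool.Agent.R917.DT.Lift

set_option autoImplicit false

/-!
# The period conjecture for 1-motives, in terms of torsors: the unipotent radical and the weights

Let `A` be any abelian variety over the field `ℚ̄` of algebraic numbers, with a polarization `φ`. Let
`P_i = exp(u_i)` and `Q_l = φ(exp(v_l))` be algebraic points of `A` and of the dual abelian variety,
`G` the extension of `A` by `G_m^s` given by the `Q_l`, and `M = [ℤ^n → G]` a 1-motive over `ℚ̄` with
the images `e_i ↦ R_i` above `P_i`. The periods of `M` are `2 π i`, the periods and quasi-periods of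
`A`, the abelian integrals `u_i` and the integrals of the second kind `h_k(u_i)`, the periods of the
third kind `∑ k, (h_k(v_l) λ_k - v_lk η_k)`, and the integrals of the third kind `ℓ_il`. The points
`R_i` are algebraic, and this means for the logarithms `ℓ_il` that

  `exp(ℓ_il) = q_il · θ(u_i - v_l) / (θ(u_i) θ(-v_l)) · exp(∑ k, h_k(v_l) u_ik)`, `q_il` algebraic:

the function `z ↦ θ(z - v) / (θ(z) θ(-v)) · exp(∑ k, h_k(v) z_k)` is the pullback of a rational
section, over `ℚ̄`, of the extension of `A` by `G_m` given by `v`. We assume that the arguments of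
the theta functions are not in the divisor of `θ`. So we get all 1-motives over `A`, up to isogeny.

The motivic Galois group of `M` is the Mumford-Tate group of the mixed Hodge structure `H_1(M)`
(Brylinski, André): the smallest algebraic group over `ℚ` which contains the image of the Deligne
torus, which acts on the subspaces `I^{p,q}` of `H_1(M, ℂ)` given by Deligne's splitting. Its
unipotent radical consists of the elements which act trivially on the graded pieces of the weight
filtration.

The period conjecture says that the comparison isomorphism is a generic point, over `ℚ̄`, of its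
torsor under the motivic Galois group of `M`. A consequence is that this torsor is the smallest
torsor, among the torsors over `ℚ̄` of all algebraic groups `G ⊆ GL(H_B(M))` over `ℚ`, which
contains the comparison isomorphism (in the terminology of André: `Ω^And = Ω^dRB`).

**Theorem.** Every such group `G` contains all elements of the Mumford-Tate group of `M` which act on
`H_1(A)` by a scalar `c` (and on the homology of `G_m^s` by `c ^ 2`, and trivially on `ℤ^n`), the
kernel of `MT(M) → PGL(H_1(A))`: for `c = 1` this is the unipotent radical, and the quotient by the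
unipotent radical is the group `G_m` of the weights.

There is no condition on `A` and on the points `P_i, Q_l, R_i`, which may satisfy any relations. The
deficient 1-motives of Ribet and Jacquinot are included, whose unipotent radical is smaller than the
relations between the points `P_i, Q_l` predict. Neither the group `G` is assumed to be contained in
the motivic Galois group, nor to preserve the weight filtration. So the torsor form of the period
conjecture for `M` is reduced to the one for `A`, modulo scalars. All theorems on transcendental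
numbers are proved in this repository.

## Proof

The Lie algebra `𝔤` of `G` is stable under all linear maps `ℂ → ℚ` applied to the logarithmic
derivatives of the period matrix with respect to all derivations of `ℂ` over `ℚ̄`. The image of `𝔤` in
the Lie algebra of the Mumford-Tate group of `A` acts semisimply on `H_1(A, ℚ)`, and its commutant is
`End(A) ⊗ ℚ` (Bost, Charles). As `π` is transcendental it contains a central element of nonzero
weight. Its part of weight `-1` is the kernel of a system of endomorphisms, and all derivations kill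
the corresponding linear combinations of the integrals of the first and of the second kind. So these
are algebraic numbers (up to periods), and by a version of the analytic subgroup theorem of Wüstholz
(`R917/OM/Point`) they are zero. Let `∑ m_il t_il` be a linear form on the part of weight `-2` which
vanishes on `𝔤`. Then the bilinear form `∑ m_il E(y_l, x_i)` is symmetric on the space `R` of the
relations between the points. The derivations of `ℂ` over `ℚ̄` show that a combination
`Λ = ∑ m_il ℓ_il + ...` is equal to `ρ · 2 π i + α` with a rational number `ρ` and an algebraic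
number `α`. On the other hand a product `T` of theta functions and of the exponential function of
an algebraic quadratic form is a periodic function on the complex vector space of `R` in this case,
and we prove that such a function is algebraic at algebraic points (`TP.alg_T`). So `exp(N Λ)` is
algebraic for some `N`, and `α = 0` by the theorem of Lindemann. So there is a rational splitting of
the weight filtration, defined by a grading element `Z`, such that the unipotent part `𝔲` of `𝔤` is
stable under `Z`, and such that the rational components of the operators which define the Hodge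
structure of `M` normalize `𝔲` and move `Z` by elements of `𝔲`. The elements of `GL(H_B(M))` with
these two properties are an algebraic group over `ℚ`, so this group contains the Mumford-Tate group
of `M`, and its elements which act trivially on the graded pieces of the weight filtration are in
`exp(𝔲 ⊗ ℂ)`, and so in `G`.

The part of weight zero of the central element of nonzero weight of `𝔤` is in the centre of the Lie
algebra of the Hodge group of `A`. So it is diagonalizable with imaginary eigenvalues, since the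
polarization is positive (`imag_roots`). By the theorem of Chevalley the Lie algebra of `G` contains
the replica of the central element for the additive map `z ↦ Re z`: this is a lift of the weight
(`weight`). It follows with the arguments above that the operator `XW` of the weights of the mixed
Hodge structure of `M` is in the Lie algebra of `G` over `ℂ` (`tW_mem`). An element of the
Mumford-Tate group which acts on `H_1(A)` by the scalar `c` is the product of the exponential of
`(log c) XW`, which is in `G`, and an element of the group above which acts trivially on the graded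
pieces.
-/

open Module Matrix Pool.Agent.Y102 Pool.Agent.R917.OM Pool.Agent.R917.BX Pool.Agent.W516.DR
  Pool.Agent.H204R3.GP Pool.Agent.W516.KC Pool.Agent.H204R3.SP Pool.Agent.TH119.MX

noncomputable section

namespace Pool.Agent.Results.MP_5d33ca_ag.OneMotivesUnipotent

variable {g n s : ℕ} (A : AbVarG g)

/-! ### 1-motives and their periods -/

/-- The basis of the Betti realization of the 1-motive: the basis `λ_j` of the lattice of `A`, the
basis `γ_l` of `H_1(G_m^s)`, the basis `e_i` of `ℤ^n`. -/
abbrev Betti (g n s : ℕ) : Type := Fin (2 * g) ⊕ (Fin s ⊕ Fin n)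

/-- The basis of the de Rham cohomology of the 1-motive: the invariant differentials `d z_k` and the
differentials of the second kind `d h_k` on `A`, the invariant differentials of the third kind `ω_l`
on the semiabelian variety, and a basis for `ℤ^n`. -/
abbrev DeRham (g n s : ℕ) : Type := (Fin g ⊕ Fin g) ⊕ (Fin s ⊕ Fin n)

/-- The integral of the second kind `h_k = ∂ k (log θ 0)`, with the value zero at the origin. -/
def second (k : Fin g) (z : Fin g → ℂ) : ℂ := pd k (A.θ 0) z / A.θ 0 z - pd k (A.θ 0) 0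

/-- The comparison isomorphism of the 1-motive. The rows are the Betti side. -/
def periodMatrix (u : Fin n → Fin g → ℂ) (v : Fin s → Fin g → ℂ) (ℓ : Fin n → Fin s → ℂ) :
    Matrix (Betti g n s) (DeRham g n s) ℂ := Matrix.of fun r c =>
  match r, c with
  | Sum.inl j, Sum.inl (Sum.inl k) => A.lam j k
  | Sum.inl j, Sum.inl (Sum.inr k) => A.η j k
  | Sum.inl j, Sum.inr (Sum.inl l) => ∑ k, (second A k (v l) * A.lam j k - v l k * A.η j k)
  | Sum.inr (Sum.inl l), Sum.inr (Sum.inl l') => if l = l' then 2 * Real.pi * Complex.I else 0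
  | Sum.inr (Sum.inr i), Sum.inl (Sum.inl k) => u i k
  | Sum.inr (Sum.inr i), Sum.inl (Sum.inr k) => second A k (u i)
  | Sum.inr (Sum.inr i), Sum.inr (Sum.inl l) => ℓ i l
  | Sum.inr (Sum.inr i), Sum.inr (Sum.inr i') => if i = i' then 1 else 0
  | _, _ => 0

/-- The data `u_i, v_l, ℓ_il` of a 1-motive over the algebraic numbers: the points of `A` and of the
dual abelian variety are algebraic, and so are the points of the extension, in terms of the
trivialization by the function `θ(z - v) / (θ(z) θ(-v)) · exp(∑ k, h_k(v) z_k)`. The vectors are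
chosen outside of the divisor of the theta function. -/
structure IsOneMotive (u : Fin n → Fin g → ℂ) (v : Fin s → Fin g → ℂ) (ℓ : Fin n → Fin s → ℂ) :
    Prop where
  point : ∀ i, IsPoint A.toAbVar (u i)
  dual : ∀ l, IsPoint A.toAbVar (v l)
  neg : ∀ l, IsPoint A.toAbVar (-v l)
  sub : ∀ i l, IsPoint A.toAbVar (u i - v l)
  log : ∀ i l, ∃ q : ℂ, IsAlgebraic ℚ q ∧ Complex.exp (ℓ i l) =
    q * (A.θ 0 (u i - v l) / (A.θ 0 (u i) * A.θ 0 (-v l))) *
      Complex.exp (∑ k, second A k (v l) * u i k)

/-! ### Algebraic groups which contain the periods -/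

/-- A subgroup of `GL_R(ℂ)` defined by polynomials with rational coefficients. -/
def IsAlgebraicSubgroup {R : Type} [Fintype R] [DecidableEq R] (G : Subgroup (GL R ℂ)) : Prop :=
  ∃ I : Set (MvPolynomial (R × R) ℚ), ∀ x : GL R ℂ, x ∈ G ↔
    ∀ p ∈ I, MvPolynomial.aeval (fun b : R × R => (x : Matrix R R ℂ) b.1 b.2) p = 0

/-- The comparison isomorphism `c` is an element of a torsor `G · T⁻¹` of `G`, defined over the
algebraic numbers: `T` is a matrix with algebraic entries (an isomorphism between the Betti side and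
the de Rham side) such that `c T ∈ G`. -/
def ContainsPeriods (u : Fin n → Fin g → ℂ) (v : Fin s → Fin g → ℂ) (ℓ : Fin n → Fin s → ℂ)
    (G : Subgroup (GL (Betti g n s) ℂ)) : Prop :=
  ∃ T : Matrix (DeRham g n s) (Betti g n s) ℂ, (∀ i j, IsAlgebraic ℚ (T i j)) ∧
    ∃ x ∈ G, (x : Matrix (Betti g n s) (Betti g n s) ℂ) = periodMatrix A u v ℓ * T

/-! ### The mixed Hodge structure and the Mumford-Tate group -/

/-- The Hodge filtration: the vectors of `H_1(M, ℂ)` (in terms of their coordinates) on which the
invariant differentials of the semiabelian variety vanish. -/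
def F0 (u : Fin n → Fin g → ℂ) (v : Fin s → Fin g → ℂ) (ℓ : Fin n → Fin s → ℂ)
    (x : Betti g n s → ℂ) : Prop :=
  (∀ k, ∑ r, x r * periodMatrix A u v ℓ r (Sum.inl (Sum.inl k)) = 0) ∧
    ∀ l, ∑ r, x r * periodMatrix A u v ℓ r (Sum.inr (Sum.inl l)) = 0

/-- The part of weight `≤ -1` of the homology, the homology of the semiabelian variety. -/
def W1 (x : Betti g n s → ℂ) : Prop := ∀ i, x (Sum.inr (Sum.inr i)) = 0

/-- The part of weight `≤ -2` of the homology, the homology of the torus. -/
def W2 (x : Betti g n s → ℂ) : Prop :=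
  (∀ j, x (Sum.inl j) = 0) ∧ ∀ i, x (Sum.inr (Sum.inr i)) = 0

/-- The complex conjugate vector. -/
def bar (x : Betti g n s → ℂ) : Betti g n s → ℂ := fun r => (starRingEnd ℂ) (x r)

/-- The matrix `M` gives the action of the element `z` of the Deligne torus on the homology of the
1-motive (vectors are rows): it acts by `1` on `I^{0,0} = F^0 ∩ (F̄^0 + W_{-2})`, by `z̄` on
`I^{0,-1} = F^0 ∩ W_{-1}`, by `z` on its complex conjugate `I^{-1,0}` and by `z z̄` on
`I^{-1,-1} = W_{-2}`. -/
structure IsDeligne (u : Fin n → Fin g → ℂ) (v : Fin s → Fin g → ℂ) (ℓ : Fin n → Fin s → ℂ)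
    (z : ℂ) (M : Matrix (Betti g n s) (Betti g n s) ℂ) : Prop where
  zero_zero : ∀ x y w, F0 A u v ℓ x → F0 A u v ℓ y → W2 w → x = bar y + w → x ᵥ* M = x
  zero_neg : ∀ x, F0 A u v ℓ x → W1 x → x ᵥ* M = (starRingEnd ℂ) z • x
  neg_zero : ∀ x, F0 A u v ℓ x → W1 x → bar x ᵥ* M = z • bar x
  neg_neg : ∀ x, W2 x → x ᵥ* M = (z * (starRingEnd ℂ) z) • x

/-- The Mumford-Tate group of the 1-motive: the smallest algebraic group over `ℚ` which contains the
image of the Deligne torus. -/
def mumfordTate (u : Fin n → Fin g → ℂ) (v : Fin s → Fin g → ℂ) (ℓ : Fin n → Fin s → ℂ) :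
    Subgroup (GL (Betti g n s) ℂ) :=
  sInf {G | IsAlgebraicSubgroup G ∧ ∀ z : ℂ, z ≠ 0 → ∃ x ∈ G,
    IsDeligne A u v ℓ z (x : Matrix (Betti g n s) (Betti g n s) ℂ)}

/-- The matrix `x` acts on the graded pieces of the weight filtration, of weights `0`, `-1` and
`-2`, by the scalars `1`, `c` and `c ^ 2` (vectors are rows). For `c = 1` this means that `x` is in
the unipotent radical. -/
structure ActsByScalars (c : ℂ) (x : Matrix (Betti g n s) (Betti g n s) ℂ) : Prop where
  /-- on the piece of weight zero -/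
  zero : ∀ y, W1 (y ᵥ* x - y)
  /-- on the piece of weight minus one -/
  one : ∀ y, W1 y → W2 (y ᵥ* x - c • y)
  /-- on the piece of weight minus two -/
  two : ∀ y, W2 y → y ᵥ* x = c ^ 2 • y

/-! ### Proofs -/

/-- the data of the 1-motive -/
def dat (u : Fin n → Fin g → ℂ) (v : Fin s → Fin g → ℂ) (ℓ : Fin n → Fin s → ℂ) : Dt g n s where
  P := Sum.elim (fun i => Sum.elim (u i) (fun k => second A k (u i)))
    (fun l => Sum.elim (v l) (fun k => second A k (v l)))
  ℓ := ℓ

theorem per_eb (j : Fin (2 * g)) (k : Fin g) : A.dR (Sum.inl k) (eb A.toAbVar j) = A.lam j k := by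
  change A.per (Pi.single j 1) k = _
  unfold AbVar.per
  rw [Fintype.linearCombination_apply_single, one_smul]

theorem eta_eb (j : Fin (2 * g)) (k : Fin g) : A.dR (Sum.inr k) (eb A.toAbVar j) = A.η j k := by
  change A.eta (Pi.single j 1) k = _
  unfold AbVar.eta
  rw [Fintype.linearCombination_apply_single, one_smul]

theorem periodMatrix_eq (u : Fin n → Fin g → ℂ) (v : Fin s → Fin g → ℂ)
    (ℓ : Fin n → Fin s → ℂ) : periodMatrix A u v ℓ = pmat A.toAbVar (dat A u v ℓ) := by
  ext r c
  rcases r with j | l | i <;> rcases c with (k | k) | l' | i' <;>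
    simp [periodMatrix, pmat, dat, per_eb, eta_eb, thd, tau]

theorem deligne_of (u : Fin n → Fin g → ℂ) (v : Fin s → Fin g → ℂ) (ℓ : Fin n → Fin s → ℂ)
    {z : ℂ} (hz : z ≠ 0) {y : Matrix (Betti g n s) (Betti g n s) ℂ}
    (hM : ∀ (w : Betti g n s → ℂ) (a b : ℂ), w ᵥ* XW A.toAbVar (dat A u v ℓ) = a • w →
        w ᵥ* XJ A.toAbVar (dat A u v ℓ) = b • w →
        w ᵥ* y = Complex.exp ((Complex.log z).re * a + (Complex.log z).im * b) • w) :
    IsDeligne A u v ℓ z y := by
  have hlog : ((Complex.log z).re : ℂ) + (Complex.log z).im * Complex.I = Complex.log z :=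
    Complex.re_add_im _
  have hexp := Complex.exp_log hz
  have hconj : Complex.exp ((starRingEnd ℂ) (Complex.log z)) = (starRingEnd ℂ) z := by
    rw [Complex.exp_conj, hexp]
  have hlog' : ((Complex.log z).re : ℂ) - (Complex.log z).im * Complex.I =
      (starRingEnd ℂ) (Complex.log z) := by
    apply Complex.ext <;> simp
  have hF : ∀ a, F0 A u v ℓ a → (∀ k, i1 A.toAbVar (dat A u v ℓ) a k = 0) ∧
      ∀ l, i3 A.toAbVar (dat A u v ℓ) a l = 0 := by
    rintro a ⟨ha1, ha2⟩
    rw [periodMatrix_eq] at ha1 ha2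
    exact ⟨ha1, ha2⟩
  refine ⟨fun a b w ha hb hw hab => ?_, fun a ha ha1 => ?_, fun a ha ha1 => ?_,
    fun a ha => ?_⟩
  · obtain ⟨e1, e2⟩ := eig_0 (A := A.toAbVar) (d := dat A u v ℓ) (v := a) (f := b)
      (fun j => by rw [hab, Pi.add_apply, hw.1, add_zero]; rfl)
      (fun i => by rw [hab, Pi.add_apply, hw.2, add_zero]; rfl) (hF a ha).1 (hF a ha).2 (hF b hb).1
    have h3 := hM a 0 0 e1 e2
    rwa [mul_zero, mul_zero, add_zero, Complex.exp_zero, one_smul] at h3
  · obtain ⟨e1, e2⟩ := eig_m (A := A.toAbVar) (d := dat A u v ℓ) (v := a) ha1 (hF a ha).1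
      (hF a ha).2
    have h3 := hM a 1 (-Complex.I) (by rw [one_smul]; exact e1) e2
    rw [h3, ← hconj, ← hlog']
    congr 2
    ring
  · obtain ⟨e1, e2⟩ := eig_p (A := A.toAbVar) (d := dat A u v ℓ) (v := bar a) (w := a)
      (fun r => rfl) ha1 (hF a ha).1 (hF a ha).2
    have h3 := hM (bar a) 1 Complex.I (by rw [one_smul]; exact e1) e2
    rw [h3, mul_one, hlog, hexp]
  · obtain ⟨e1, e2⟩ := eig_t (A := A.toAbVar) (d := dat A u v ℓ) (v := a) ha.1 ha.2
    have h3 := hM a 2 0 e1 e2
    rw [h3]
    congr 1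
    rw [mul_zero, add_zero]
    have h4 : z * (starRingEnd ℂ) z =
        Complex.exp (Complex.log z) * Complex.exp ((starRingEnd ℂ) (Complex.log z)) := by
      rw [hexp, hconj]
    rw [h4, ← Complex.exp_add]
    congr 1
    linear_combination hlog + hlog'

theorem single_sub (x : Matrix (Betti g n s) (Betti g n s) ℂ) (r r' : Betti g n s) :
    (Pi.single r 1 ᵥ* x - Pi.single r 1 : Betti g n s → ℂ) r' = (x - 1) r r' := by
  rw [Pi.sub_apply, Matrix.single_one_vecMul, Matrix.sub_apply, Matrix.one_apply, Pi.single_apply]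
  congr 1
  by_cases h : r = r'
  · rw [if_pos h, if_pos h.symm]
  · rw [if_neg h, if_neg (fun h' => h h'.symm)]

/-- Trivial action on the graded pieces. -/
structure Unip (x : Matrix (Betti g n s) (Betti g n s) ℂ) : Prop where
  zero : ∀ y, W1 (y ᵥ* x - y)
  one : ∀ y, W1 y → W2 (y ᵥ* x - y)
  two : ∀ y, W2 y → y ᵥ* x - y = 0

theorem Unip.mem_Ns {x : Matrix (Betti g n s) (Betti g n s) ℂ} (h : Unip x) :
    x - 1 ∈ Ns g n s := by
  refine ⟨fun j j' => ?_, fun j i => ?_, fun l r => ?_, fun i i' => ?_⟩
  · rw [← single_sub]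
    refine (h.one (Pi.single (Sum.inl j) 1) fun i => ?_).1 j'
    rw [Pi.single_apply, if_neg (by simp)]
  · rw [← single_sub]
    refine (h.one (Pi.single (Sum.inl j) 1) fun i => ?_).2 i
    rw [Pi.single_apply, if_neg (by simp)]
  · rw [← single_sub, h.two (Pi.single (Sum.inr (Sum.inl l)) 1) ⟨fun j => ?_, fun i => ?_⟩]
    · rfl
    · rw [Pi.single_apply, if_neg (by simp)]
    · rw [Pi.single_apply, if_neg (by simp)]
  · rw [← single_sub]
    exact h.zero _ i'

theorem W1.add {x y : Betti g n s → ℂ} (hx : W1 x) (hy : W1 y) : W1 (x + y) := fun i => by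
  rw [Pi.add_apply, hx i, hy i, add_zero]

theorem W1.smul {x : Betti g n s → ℂ} (hx : W1 x) (c : ℂ) : W1 (c • x) := fun i => by
  rw [Pi.smul_apply, hx i, smul_zero]

theorem W2.add {x y : Betti g n s → ℂ} (hx : W2 x) (hy : W2 y) : W2 (x + y) :=
  ⟨fun j => by rw [Pi.add_apply, hx.1 j, hy.1 j, add_zero],
    fun i => by rw [Pi.add_apply, hx.2 i, hy.2 i, add_zero]⟩

theorem W2.smul {x : Betti g n s → ℂ} (hx : W2 x) (c : ℂ) : W2 (c • x) :=
  ⟨fun j => by rw [Pi.smul_apply, hx.1 j, smul_zero],
    fun i => by rw [Pi.smul_apply, hx.2 i, smul_zero]⟩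

theorem W2.w1 {x : Betti g n s → ℂ} (hx : W2 x) : W1 x := hx.2

section XW

variable {A' : AbVar g} {d : Dt g n s}

theorem XW_zero (y : Betti g n s → ℂ) : W1 (y ᵥ* XW A' d) := by
  intro i
  simp [Matrix.vecMul, dotProduct, XW, Fintype.sum_sum_type]

theorem XW_one {y : Betti g n s → ℂ} (hy : W1 y) : W2 (y ᵥ* XW A' d - y) := by
  constructor
  · intro j
    rw [Pi.sub_apply]
    have h1 : ∀ i, y (Sum.inr (Sum.inr i)) = 0 := hy
    simp [Matrix.vecMul, dotProduct, XW, Fintype.sum_sum_type, h1]
  · intro i
    rw [Pi.sub_apply, XW_zero y i, hy i, sub_zero]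

theorem XW_two {y : Betti g n s → ℂ} (hy : W2 y) : y ᵥ* XW A' d = (2 : ℂ) • y := by
  have h1 : ∀ i, y (Sum.inr (Sum.inr i)) = 0 := hy.2
  have h2 : ∀ j, y (Sum.inl j) = 0 := hy.1
  funext r
  rcases r with j | l | i
  · simp [Matrix.vecMul, dotProduct, XW, Fintype.sum_sum_type, h1, h2]
  · simp [Matrix.vecMul, dotProduct, XW, Fintype.sum_sum_type, h1, h2, mul_comm]
  · simp [Matrix.vecMul, dotProduct, XW, Fintype.sum_sum_type, h1, h2]

/-- The action of the exponential of the weight on the graded pieces. -/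
theorem exp_XW (b : ℂ) : ActsByScalars (Complex.exp b) (NormedSpace.exp (b • XW A' d)) := by
  have hev : ∀ (μ : ℂ) (y : Betti g n s → ℂ), y ᵥ* XW A' d = μ • y →
      y ᵥ* NormedSpace.exp (b • XW A' d) = Complex.exp (b * μ) • y := by
    intro μ y hy
    refine vecMul_exp ?_
    rw [Matrix.vecMul_smul, hy, smul_smul]
  have htwo : ∀ y : Betti g n s → ℂ, W2 y →
      y ᵥ* NormedSpace.exp (b • XW A' d) = Complex.exp b ^ 2 • y := by
    intro y hy
    rw [hev 2 y (XW_two hy), ← Complex.exp_nat_mul]
    congr 2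
    push_cast
    ring
  have hone : ∀ y : Betti g n s → ℂ, W1 y →
      W2 (y ᵥ* NormedSpace.exp (b • XW A' d) - Complex.exp b • y) := by
    intro y hy
    obtain ⟨w, hw⟩ : ∃ w, w = y ᵥ* XW A' d - y := ⟨_, rfl⟩
    have hw2 : W2 w := by
      rw [hw]
      exact XW_one hy
    have h1 : y ᵥ* XW A' d = y + w := by
      rw [hw]
      abel
    have h2 : (y - w) ᵥ* XW A' d = (1 : ℂ) • (y - w) := by
      rw [Matrix.sub_vecMul, h1, XW_two hw2, one_smul, two_smul]
      abel
    have h3 := hev 1 (y - w) h2
    rw [mul_one, Matrix.sub_vecMul, htwo w hw2, sub_eq_iff_eq_add] at h3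
    rw [h3, smul_sub]
    have h4 : Complex.exp b • y - Complex.exp b • w + Complex.exp b ^ 2 • w - Complex.exp b • y =
        (-Complex.exp b) • w + Complex.exp b ^ 2 • w := by
      rw [neg_smul]
      abel
    rw [h4]
    exact (hw2.smul _).add (hw2.smul _)
  have honeW : ∀ y : Betti g n s → ℂ, W1 y → W1 (y ᵥ* NormedSpace.exp (b • XW A' d)) := by
    intro y hy
    have h1 := (hone y hy).w1.add (hy.smul (Complex.exp b))
    rwa [sub_add_cancel] at h1
  refine ⟨fun y => ?_, hone, htwo⟩
  obtain ⟨z, hz⟩ : ∃ z, z = y ᵥ* XW A' d := ⟨_, rfl⟩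
  have hz1 : W1 z := by
    rw [hz]
    exact XW_zero y
  obtain ⟨w, hw⟩ : ∃ w, w = z ᵥ* XW A' d - z := ⟨_, rfl⟩
  have hw2 : W2 w := by
    rw [hw]
    exact XW_one hz1
  have h1 : z ᵥ* XW A' d = z + w := by
    rw [hw]
    abel
  have h2 : (y - z + (1 / 2 : ℂ) • w) ᵥ* XW A' d = (0 : ℂ) • (y - z + (1 / 2 : ℂ) • w) := by
    rw [Matrix.add_vecMul, Matrix.sub_vecMul, ← hz, h1, Matrix.smul_vecMul, XW_two hw2, smul_smul,
      zero_smul]
    norm_num
  have h3 := hev 0 _ h2
  rw [mul_zero, Complex.exp_zero, one_smul, Matrix.add_vecMul, Matrix.sub_vecMul] at h3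
  have h4 : y ᵥ* NormedSpace.exp (b • XW A' d) - y = (z ᵥ* NormedSpace.exp (b • XW A' d) +
      (-1 : ℂ) • z) + (((1 / 2 : ℂ) • w) + (-1 : ℂ) • (((1 / 2 : ℂ) • w) ᵥ*
        NormedSpace.exp (b • XW A' d))) := by
    have h5 : y ᵥ* NormedSpace.exp (b • XW A' d) = y - z + (1 / 2 : ℂ) • w +
        z ᵥ* NormedSpace.exp (b • XW A' d) -
        ((1 / 2 : ℂ) • w) ᵥ* NormedSpace.exp (b • XW A' d) := by
      rw [← h3]
      abel
    rw [h5, neg_one_smul, neg_one_smul]
    abel
  rw [h4]
  exact ((honeW z hz1).add (hz1.smul _)).add ((hw2.smul _).w1.add ((honeW _ (hw2.smul _).w1).smul _))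

theorem ActsByScalars.mul_inv {c : ℂ} (hc : c ≠ 0) {x y : Matrix (Betti g n s) (Betti g n s) ℂ}
    (hx : ActsByScalars c x) (hy : ActsByScalars c⁻¹ y) : Unip (x * y) := by
  refine ⟨fun w => ?_, fun w hw => ?_, fun w hw => ?_⟩
  · have h1 := (hy.zero (w ᵥ* x)).add (hx.zero w)
    rw [sub_add_sub_cancel, Matrix.vecMul_vecMul] at h1
    exact h1
  · obtain ⟨r, hr⟩ : ∃ r, r = w ᵥ* x - c • w := ⟨_, rfl⟩
    have hr2 : W2 r := by
      rw [hr]
      exact hx.one w hw
    have h1 : w ᵥ* x = c • w + r := by
      rw [hr]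
      abel
    rw [← Matrix.vecMul_vecMul, h1, Matrix.add_vecMul, Matrix.smul_vecMul, hy.two r hr2]
    have h2 := ((hy.one w hw).smul c).add (hr2.smul (c⁻¹ ^ 2))
    rw [smul_sub, smul_smul, mul_inv_cancel₀ hc, one_smul] at h2
    convert h2 using 1
    abel
  · rw [← Matrix.vecMul_vecMul, hx.two w hw, Matrix.smul_vecMul, hy.two w hw, smul_smul, inv_pow,
      mul_inv_cancel₀ (pow_ne_zero 2 hc), one_smul, sub_self]

end XW

/-- **Theorem.** Every algebraic group over `ℚ` with a torsor over `ℚ̄` which contains the comparison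
isomorphism of a 1-motive over `ℚ̄` contains all elements of the Mumford-Tate group of the 1-motive
which act by scalars on the homology of the abelian variety: the unipotent radical and the
weights. -/
theorem result (g n s : ℕ) (A : AbVarG g) (u : Fin n → Fin g → ℂ)
    (v : Fin s → Fin g → ℂ) (ℓ : Fin n → Fin s → ℂ) (hM : IsOneMotive A u v ℓ)
    (G : Subgroup (GL (Betti g n s) ℂ)) (hG : IsAlgebraicSubgroup G)
    (hP : ContainsPeriods A u v ℓ G) :
    ∀ x ∈ mumfordTate A u v ℓ, ∀ c : ℂ, c ≠ 0 →
      ActsByScalars c (x : Matrix (Betti g n s) (Betti g n s) ℂ) → x ∈ G := by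
  obtain ⟨T, hT, x₀, hx, hxT⟩ := hP
  rw [periodMatrix_eq] at hxT
  have hpt := ptM_of hG hT hx hxT
  obtain ⟨K₁, hK₁, hrat⟩ := exists_rat_mult A (pt (dat A u v ℓ)) (by
    rintro (i | l)
    · exact Or.inl (hM.point i)
    · exact Or.inl (hM.dual l))
  have hgd : Good A (dat A u v ℓ) := ⟨hM.point, hM.neg, hM.sub, hM.log⟩
  obtain ⟨𝔤, h𝔤⟩ : ∃ 𝔤, 𝔤 = gg A.toAbVar n s {M : Matrix (Betti g n s) (Betti g n s) ℂ |
      ∃ x ∈ G, (x : Matrix _ _ ℂ) = M} := ⟨_, rfl⟩
  have h : Lg 𝔤 (dat A u v ℓ) := by
    rw [h𝔤]
    exact gg_Lg hpt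
  obtain ⟨U⟩ := main2 h hrat
  obtain ⟨t₀, ht₀⟩ := U.exists_t0 h
  -- the Mumford-Tate group is contained in the big group
  have hle : mumfordTate A u v ℓ ≤ PG (cV (UD.uQ 𝔤)) (Pool.Agent.R917.OM.mt (U.Zt t₀)) := by
    refine sInf_le ⟨⟨_, mem_PG (UD.uQ 𝔤) (mtQ (U.Zt t₀))⟩, fun z hz => ?_⟩
    have hX : ((Complex.log z).re : ℂ) • XW A.toAbVar (dat A u v ℓ) +
        ((Complex.log z).im : ℂ) • XJ A.toAbVar (dat A u v ℓ) ∈ UD.PP' 𝔤 (Pool.Agent.R917.OM.mt (U.Zt t₀)) :=
      Submodule.add_mem _ (Submodule.smul_mem _ _ (U.XW_mem t₀ h hgd ht₀))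
        (Submodule.smul_mem _ _ (U.XJ_mem t₀ h))
    obtain ⟨y, hy, hyM⟩ := exp_mem_PG hX.1 hX.2
    have hM' : ∀ (w : Betti g n s → ℂ) (a b : ℂ), w ᵥ* XW A.toAbVar (dat A u v ℓ) = a • w →
        w ᵥ* XJ A.toAbVar (dat A u v ℓ) = b • w →
        w ᵥ* (y : Matrix (Betti g n s) (Betti g n s) ℂ) =
          Complex.exp ((Complex.log z).re * a + (Complex.log z).im * b) • w := by
      intro w a b ha hb
      rw [hyM]
      refine vecMul_exp ?_
      rw [Matrix.vecMul_add, Matrix.vecMul_smul, Matrix.vecMul_smul, ha, hb, smul_smul, smul_smul,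
        ← add_smul]
    refine ⟨y, hy, ?_⟩
    exact deligne_of A u v ℓ hz hM'
  intro x hx' c hc hxc
  obtain ⟨b, hb⟩ : ∃ b, Complex.exp b = c⁻¹ := ⟨_, Complex.exp_log (inv_ne_zero hc)⟩
  -- the weight
  have hW := Pool.Agent.R917.DT.weight hpt
  rw [← h𝔤] at hW
  have hWS : ∀ k, Stab {M : Matrix (Betti g n s) (Betti g n s) ℂ | ∃ x ∈ G,
      (x : Matrix _ _ ℂ) = M} k (b • XW A.toAbVar (dat A u v ℓ)) := by
    intro k
    refine Stab.smul _ (stab_of_comp fun lam => ?_)
    rw [← mt_tW]
    have h3 := U.tW_mem h hgd hW lam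
    rw [h𝔤] at h3
    exact h3.2 k
  obtain ⟨E, hE, hEX⟩ := exp_mem_PG (V := cV (UD.uQ 𝔤)) (Z := Pool.Agent.R917.OM.mt (U.Zt t₀))
    (X := b • XW A.toAbVar (dat A u v ℓ))
    (Submodule.smul_mem (UD.PP' 𝔤 (Pool.Agent.R917.OM.mt (U.Zt t₀))) b
      (U.XW_mem t₀ h hgd ht₀)).1
    (Submodule.smul_mem (UD.PP' 𝔤 (Pool.Agent.R917.OM.mt (U.Zt t₀))) b
      (U.XW_mem t₀ h hgd ht₀)).2
  have hEG : E ∈ G := by
    obtain ⟨y, hy, hyY⟩ := Pool.Agent.R917.exp_mem hpt.grp hWS
    rw [← hEX] at hyY
    rwa [Units.ext hyY] at hy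
  have hEs : ActsByScalars c⁻¹ (E : Matrix (Betti g n s) (Betti g n s) ℂ) := by
    rw [hEX, ← hb]
    exact exp_XW b
  have hxu : Unip ((x * E : GL (Betti g n s) ℂ) : Matrix (Betti g n s) (Betti g n s) ℂ) := by
    rw [Units.val_mul]
    exact hxc.mul_inv hc hEs
  obtain ⟨Y, hY, hYx⟩ := U.unip_exp t₀ h (mul_mem (hle hx') hE) hxu.mem_Ns
  have hS : ∀ k, Stab {M : Matrix (Betti g n s) (Betti g n s) ℂ | ∃ x ∈ G,
      (x : Matrix _ _ ℂ) = M} k Y := by
    intro k
    clear hYx
    unfold cV at hY
    induction hY using Submodule.span_induction with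
    | mem Y hY =>
      obtain ⟨y, ⟨z, t, hz, rfl⟩, rfl⟩ := hY
      rw [h𝔤] at hz
      exact hz.2 k
    | zero => exact Stab.zero
    | add Y Y' _ _ h h' => exact h.add h'
    | smul c Y _ h => exact h.smul c
  obtain ⟨y, hy, hyY⟩ := Pool.Agent.R917.exp_mem hpt.grp hS
  rw [← hYx] at hyY
  rw [Units.ext hyY] at hy
  have h6 := mul_mem hy (inv_mem hEG)
  rwa [mul_inv_cancel_right] at h6

end Pool.Agent.Results.MP_5d33ca_ag.OneMotivesUnipotent
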